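import Pool.Agent.Y690.PP.Stm

/-! The mean value of the functions `hh` is zero. -/

set_option autoImplicit false

open Finset

namespace Pool.Agent.Y497.PP

open Pool.Agent.Y690.PP

/-! ### divisibility -/

theorem nat_dvd_iff (M : ℕ) (v : G) : (M : G) ∣ v ↔ (M : ℤ) ∣ v.re ∧ (M : ℤ) ∣ v.im := by
  have h := Zsqrtd.intCast_dvd (d := -1) (M : ℤ) v
  rw [← h]
  simp

theorem gN_cast (q : Pr) : ((gN q : ℕ) : G) = ((q.1.norm : ℤ) : G) := by
  have h : ((gN q : ℕ) : ℤ) = q.1.norm :=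
    Int.natAbs_of_nonneg (Zsqrtd.norm_nonneg (by norm_num) q.1)
  rw [← h, Int.cast_natCast]

theorem dvd_gN (q : Pr) : q.1 ∣ ((gN q : ℕ) : G) := by
  rw [gN_cast, Zsqrtd.norm_eq_mul_conj]
  exact dvd_mul_right _ _

theorem dvd_NN {A : Finset Pr} {q : Pr} (hq : q ∈ A) : gN q ∣ NN gN A := by
  unfold NN
  exact Finset.dvd_prod_of_mem _ hq

theorem cast_dvd {a b : ℕ} (h : a ∣ b) : ((a : ℕ) : G) ∣ ((b : ℕ) : G) := by
  obtain ⟨c, rfl⟩ := h
  push_cast
  exact dvd_mul_right _ _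

theorem prm_one : Prm 1 := by
  unfold Prm
  simp

theorem prm_mul_iff {c v : G} (hc : Prm c) : Prm (c * v) ↔ Prm v := by
  unfold Prm at *
  have h1 : (⟨2, 2⟩ : G) ∣ c * v - v := by
    have : c * v - v = (c - 1) * v := by ring
    rw [this]
    exact Dvd.dvd.mul_right hc v
  constructor
  · intro h
    have h2 := dvd_sub h h1
    have h3 : c * v - 1 - (c * v - v) = v - 1 := by ring
    rwa [h3] at h2
  · intro h
    have h2 := dvd_add h h1
    have h3 : v - 1 + (c * v - v) = c * v - 1 := by ring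
    rwa [h3] at h2

theorem prm_coprime_two {c : G} (hc : Prm c) : IsCoprime c (2 : G) := by
  obtain ⟨k, hk⟩ := hc
  have h1 : (⟨2, 2⟩ : G) = 2 * ⟨1, 1⟩ := by
    ext <;> simp
  refine ⟨1, -(⟨1, 1⟩ * k), ?_⟩
  have h2 : c = 1 + ⟨2, 2⟩ * k := by rw [← hk]; ring
  rw [h2, h1]
  ring

theorem prm_coprime_eight {c : G} (hc : Prm c) : IsCoprime c (8 : G) := by
  have h : (8 : G) = 2 ^ 3 := by norm_num
  rw [h]
  exact (prm_coprime_two hc).pow_right

/-- associated primary elements are equal -/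
theorem prm_assoc {p q : G} (hp : Prm p) (hq : Prm q) (h : Associated p q) : p = q := by
  obtain ⟨u, hu⟩ := h
  have hu1 : (u : G) = 1 ∨ (u : G) = -1 ∨ (u : G) = ⟨0, 1⟩ ∨ (u : G) = ⟨0, -1⟩ := by
    have h1 : (u : G).norm.natAbs = 1 := Zsqrtd.norm_eq_one_iff.2 u.isUnit
    have h2 : (u : G).norm = (u : G).re * (u : G).re + (u : G).im * (u : G).im := by
      rw [Zsqrtd.norm_def]
      ring
    set a := (u : G).re with ha
    set b := (u : G).im with hb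
    have h3 : a * a + b * b = 1 := by
      have h4 : 0 ≤ a * a + b * b := add_nonneg (mul_self_nonneg a) (mul_self_nonneg b)
      rw [h2] at h1
      omega
    have h5 : a * a ≤ 1 := by nlinarith [mul_self_nonneg b]
    have h6 : b * b ≤ 1 := by nlinarith [mul_self_nonneg a]
    have ha1 : -1 ≤ a ∧ a ≤ 1 := by constructor <;> nlinarith
    have hb1 : -1 ≤ b ∧ b ≤ 1 := by constructor <;> nlinarith
    have hex : (u : G) = ⟨a, b⟩ := by
      ext <;> simp [ha, hb]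
    have hca : a = -1 ∨ a = 0 ∨ a = 1 := by omega
    have hcb : b = -1 ∨ b = 0 ∨ b = 1 := by omega
    rw [hex]
    rcases hca with h | h | h <;> rcases hcb with h' | h' | h' <;> rw [h, h'] at h3 ⊢ <;>
      norm_num at h3
    · right; left; ext <;> simp
    · right; right; right; rfl
    · right; right; left; rfl
    · left; ext <;> simp
  obtain ⟨k, hk⟩ := hp
  obtain ⟨l, hl⟩ := hq
  rw [← hu] at hl ⊢
  have h2 : (p * (u : G) - 1) - (p - 1) * (u : G) = (u : G) - 1 := by ring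
  rw [hk, hl] at h2
  have h3 : (⟨2, 2⟩ : G) ∣ (u : G) - 1 := ⟨l - k * u, by rw [← h2]; ring⟩
  rcases hu1 with h | h | h | h
  · rw [h, mul_one]
  all_goals
    exfalso
    rw [h] at h3
    obtain ⟨m, hm⟩ := h3
    have e1 := congrArg Zsqrtd.re hm
    have e2 := congrArg Zsqrtd.im hm
    simp at e1 e2
    omega

theorem coprime_ne {q q0 : Pr} (h : q ≠ q0) : ¬ q.1 ∣ q0.1 := by
  intro hd
  apply h
  apply Subtype.ext
  exact prm_assoc q.2.2 q0.2.2 (q.2.1.irreducible.associated_of_dvd q0.2.1.irreducible hd)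

/-! ### nonresidues -/

theorem finite_quot (q : Pr) : Finite (G ⧸ Ideal.span {q.1}) := by
  have hN : 0 < gN q := by
    unfold gN nm
    rw [Int.natAbs_pos]
    intro h
    have := (Zsqrtd.norm_eq_zero_iff (by norm_num : (-1 : ℤ) < 0) q.1).1 h
    exact q.2.1.ne_zero this
  have : NeZero (gN q) := ⟨hN.ne'⟩
  let f : Fin (gN q) × Fin (gN q) → G ⧸ Ideal.span {q.1} := fun p =>
    Ideal.Quotient.mk _ (⟨((p.1 : ℕ) : ℤ), ((p.2 : ℕ) : ℤ)⟩ : G)
  refine Finite.of_surjective f ?_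
  intro z
  obtain ⟨v, rfl⟩ := Ideal.Quotient.mk_surjective z
  have hr : ∀ a : ℤ, 0 ≤ a % (gN q : ℤ) ∧ a % (gN q : ℤ) < gN q := fun a =>
    ⟨Int.emod_nonneg _ (by exact_mod_cast hN.ne'), Int.emod_lt_of_pos _ (by exact_mod_cast hN)⟩
  refine ⟨(⟨(v.re % (gN q : ℤ)).toNat, by have := hr v.re; omega⟩,
    ⟨(v.im % (gN q : ℤ)).toNat, by have := hr v.im; omega⟩), ?_⟩
  show Ideal.Quotient.mk _ (⟨(((v.re % (gN q : ℤ)).toNat : ℕ) : ℤ),
    (((v.im % (gN q : ℤ)).toNat : ℕ) : ℤ)⟩ : G) = _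
  rw [Int.toNat_of_nonneg (hr _).1, Int.toNat_of_nonneg (hr _).1]
  rw [Ideal.Quotient.eq, Ideal.mem_span_singleton]
  refine (dvd_gN q).trans ?_
  rw [nat_dvd_iff]
  constructor
  · show (gN q : ℤ) ∣ v.re % (gN q : ℤ) - v.re
    have := Int.emod_add_mul_ediv v.re (gN q)
    exact ⟨-(v.re / gN q), by linarith⟩
  · show (gN q : ℤ) ∣ v.im % (gN q : ℤ) - v.im
    have := Int.emod_add_mul_ediv v.im (gN q)
    exact ⟨-(v.im / gN q), by linarith⟩

theorem exists_nonres (q : Pr) : ∃ n : G, ¬ q.1 ∣ n ∧ qs q.1 n = -1 := by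
  have hmax : (Ideal.span {q.1} : Ideal G).IsMaximal :=
    PrincipalIdealRing.isMaximal_of_irreducible q.2.1.irreducible
  let _ : Field (G ⧸ Ideal.span {q.1}) := Ideal.Quotient.field _
  have hfin : Finite (G ⧸ Ideal.span {q.1}) := finite_quot q
  have hchar : ringChar (G ⧸ Ideal.span {q.1}) ≠ 2 := by
    intro h
    have h1 : ((2 : ℕ) : G ⧸ Ideal.span {q.1}) = 0 := by
      rw [← h]
      exact ringChar.Nat.cast_ringChar
    have h2 : Ideal.Quotient.mk (Ideal.span {q.1}) (2 : G) = 0 := by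
      rw [map_ofNat]
      simpa using h1
    rw [Ideal.Quotient.eq_zero_iff_mem, Ideal.mem_span_singleton] at h2
    have h3 := (prm_coprime_two q.2.2).isUnit_of_dvd' (dvd_refl q.1) h2
    exact q.2.1.not_isUnit h3
  obtain ⟨z, hz⟩ := FiniteField.exists_nonsquare hchar
  obtain ⟨n, rfl⟩ := Ideal.Quotient.mk_surjective z
  have hn : ¬ q.1 ∣ n := by
    intro h
    apply hz
    have : Ideal.Quotient.mk (Ideal.span {q.1}) n = 0 := by
      rw [Ideal.Quotient.eq_zero_iff_mem, Ideal.mem_span_singleton]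
      exact h
    rw [this]
    exact ⟨0, by simp⟩
  refine ⟨n, hn, ?_⟩
  unfold qs
  rw [if_neg hn, if_neg]
  rintro ⟨b, hb⟩
  apply hz
  refine ⟨Ideal.Quotient.mk _ b, ?_⟩
  rw [← map_mul, eq_comm, Ideal.Quotient.eq, Ideal.mem_span_singleton]
  exact hb

theorem qs_one (q : Pr) : qs q.1 1 = 1 := by
  unfold qs
  rw [if_neg, if_pos ⟨1, by simp⟩]
  intro h
  exact q.2.1.not_isUnit (isUnit_of_dvd_one h)

theorem qs_of_dvd (h : SMULT) {q : Pr} {c : G} (hc : q.1 ∣ c - 1) : qs q.1 c = 1 := by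
  rw [h.2.1 q.1 c 1 hc, qs_one]

/-! ### the sum -/

theorem sum_zero (M : ℕ) (hM : 0 < M) (h : G → ℝ) (c : G) (hc : IsCoprime c (M : G))
    (hper : ∀ v w : G, (M : G) ∣ v - w → h v = h w) (hneg : ∀ v, h (c * v) = - h v) :
    ∑ x ∈ range M, ∑ y ∈ range M, h ⟨(x : ℤ), (y : ℤ)⟩ = 0 := by
  have hr : ∀ a : ℤ, 0 ≤ a % (M : ℤ) ∧ a % (M : ℤ) < M := fun a =>
    ⟨Int.emod_nonneg _ (by exact_mod_cast hM.ne'), Int.emod_lt_of_pos _ (by exact_mod_cast hM)⟩
  rw [← Finset.sum_product' (range M) (range M) (fun x y => h ⟨(x : ℤ), (y : ℤ)⟩)]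
  set S := ∑ p ∈ range M ×ˢ range M, h ⟨(p.1 : ℤ), (p.2 : ℤ)⟩ with hS
  let φ : ℕ × ℕ → ℕ × ℕ := fun p => (((c * (⟨(p.1 : ℤ), (p.2 : ℤ)⟩ : G)).re % (M : ℤ)).toNat,
    ((c * (⟨(p.1 : ℤ), (p.2 : ℤ)⟩ : G)).im % (M : ℤ)).toNat)
  have hφ : ∀ p : ℕ × ℕ, (M : G) ∣ c * (⟨(p.1 : ℤ), (p.2 : ℤ)⟩ : G) -
      ⟨((φ p).1 : ℤ), ((φ p).2 : ℤ)⟩ := by
    intro p
    rw [nat_dvd_iff]
    have e1 : (((φ p).1 : ℕ) : ℤ) = (c * (⟨(p.1 : ℤ), (p.2 : ℤ)⟩ : G)).re % (M : ℤ) :=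
      Int.toNat_of_nonneg (hr _).1
    have e2 : (((φ p).2 : ℕ) : ℤ) = (c * (⟨(p.1 : ℤ), (p.2 : ℤ)⟩ : G)).im % (M : ℤ) :=
      Int.toNat_of_nonneg (hr _).1
    rw [e1, e2]
    constructor
    · show (M : ℤ) ∣ (c * (⟨(p.1 : ℤ), (p.2 : ℤ)⟩ : G)).re -
        (c * (⟨(p.1 : ℤ), (p.2 : ℤ)⟩ : G)).re % (M : ℤ)
      exact Int.dvd_self_sub_emod
    · show (M : ℤ) ∣ (c * (⟨(p.1 : ℤ), (p.2 : ℤ)⟩ : G)).im -
        (c * (⟨(p.1 : ℤ), (p.2 : ℤ)⟩ : G)).im % (M : ℤ)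
      exact Int.dvd_self_sub_emod
  have hmaps : Set.MapsTo φ ((range M ×ˢ range M : Finset (ℕ × ℕ)) : Set (ℕ × ℕ))
      ((range M ×ˢ range M : Finset (ℕ × ℕ)) : Set (ℕ × ℕ)) := by
    intro p _
    rw [Finset.mem_coe, Finset.mem_product, Finset.mem_range, Finset.mem_range]
    have h1 := hr (c * (⟨(p.1 : ℤ), (p.2 : ℤ)⟩ : G)).re
    have h2 := hr (c * (⟨(p.1 : ℤ), (p.2 : ℤ)⟩ : G)).im
    constructor
    · show ((c * (⟨(p.1 : ℤ), (p.2 : ℤ)⟩ : G)).re % (M : ℤ)).toNat < M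
      omega
    · show ((c * (⟨(p.1 : ℤ), (p.2 : ℤ)⟩ : G)).im % (M : ℤ)).toNat < M
      omega
  have hinj : Set.InjOn φ ((range M ×ˢ range M : Finset (ℕ × ℕ)) : Set (ℕ × ℕ)) := by
    intro p hp p' hp' he
    rw [Finset.mem_coe, Finset.mem_product, Finset.mem_range, Finset.mem_range] at hp hp'
    have h1 := dvd_sub (hφ p) (hφ p')
    rw [he] at h1
    have h2 : c * (⟨(p.1 : ℤ), (p.2 : ℤ)⟩ : G) - ⟨((φ p').1 : ℤ), ((φ p').2 : ℤ)⟩ -
        (c * (⟨(p'.1 : ℤ), (p'.2 : ℤ)⟩ : G) - ⟨((φ p').1 : ℤ), ((φ p').2 : ℤ)⟩) =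
        c * ((⟨(p.1 : ℤ), (p.2 : ℤ)⟩ : G) - ⟨(p'.1 : ℤ), (p'.2 : ℤ)⟩) := by ring
    rw [h2] at h1
    have h3 := hc.symm.dvd_of_dvd_mul_left h1
    rw [nat_dvd_iff] at h3
    have h4 : (M : ℤ) ∣ (p.1 : ℤ) - p'.1 := h3.1
    have h5 : (M : ℤ) ∣ (p.2 : ℤ) - p'.2 := h3.2
    have key : ∀ a b : ℕ, a < M → b < M → (M : ℤ) ∣ (a : ℤ) - b → a = b := by
      intro a b ha hb hd
      have h6 : (a : ℤ) - b = 0 := by
        apply Int.eq_zero_of_abs_lt_dvd hd
        rw [abs_lt]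
        constructor <;> omega
      omega
    exact Prod.ext (key _ _ hp.1 hp'.1 h4) (key _ _ hp.2 hp'.2 h5)
  have hsurj : Set.SurjOn φ ((range M ×ˢ range M : Finset (ℕ × ℕ)) : Set (ℕ × ℕ))
      ((range M ×ˢ range M : Finset (ℕ × ℕ)) : Set (ℕ × ℕ)) :=
    Finset.surjOn_of_injOn_of_card_le φ hmaps hinj le_rfl
  have h1 : S = - S := by
    have h2 : ∑ p ∈ range M ×ˢ range M, -h ⟨(p.1 : ℤ), (p.2 : ℤ)⟩ = S := by
      rw [hS]
      refine Finset.sum_nbij φ (fun p hp => hmaps hp) hinj hsurj (fun p _ => ?_)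
      rw [← hneg]
      exact hper _ _ (hφ p)
    rw [Finset.sum_neg_distrib] at h2
    rw [hS] at h2 ⊢
    exact h2.symm
  linarith

/-! ### the multiplier -/

theorem sg_one : sg 1 = 1 := by
  unfold sg
  rw [if_pos]
  exact ⟨0, 0, Even.zero, by ext <;> simp⟩

theorem sg_c : sg (⟨3, 2⟩ : G) = -1 := by
  unfold sg
  rw [if_neg]
  rintro ⟨x, y, hx, h⟩
  have e1 := congrArg Zsqrtd.re h
  have e2 := congrArg Zsqrtd.im h
  simp at e1 e2
  obtain ⟨k, hk⟩ := hx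
  omega

theorem prm_c : Prm (⟨3, 2⟩ : G) := by
  refine ⟨1, ?_⟩
  ext <;> simp

theorem gN_odd (q : Pr) : IsCoprime (2 : G) ((gN q : ℕ) : G) := by
  have h1 := (prm_coprime_two q.2.2).symm
  have h2 : IsCoprime (2 : G) (star q.1) := by
    have h3 := h1.map (starRingEnd G)
    rw [map_ofNat, starRingEnd_apply] at h3
    exact h3
  rw [gN_cast, Zsqrtd.norm_eq_mul_conj]
  exact h1.mul_right h2

theorem NN_odd (A : Finset Pr) : IsCoprime (8 : G) ((NN gN A : ℕ) : G) := by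
  have h : (8 : G) = 2 ^ 3 := by norm_num
  rw [h]
  refine IsCoprime.pow_left ?_
  unfold NN
  rw [Nat.cast_prod]
  exact IsCoprime.prod_right fun q _ => gN_odd q

theorem NN_pos (A : Finset Pr) : 0 < NN gN A := by
  unfold NN
  refine Finset.prod_pos fun q _ => ?_
  unfold gN nm
  rw [Int.natAbs_pos]
  intro h
  have := (Zsqrtd.norm_eq_zero_iff (by norm_num : (-1 : ℤ) < 0) q.1).1 h
  exact q.2.1.ne_zero this

/-- the effect of multiplication by `c` -/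
theorem hh_mul (h : SMULT) (A B : Finset Pr) (e : ℕ) {c : G} (hc : Prm c)
    (h1 : (sg c : ℝ) ^ e * ∏ q ∈ A, (qs q.1 c : ℝ) = -1) (h2 : ∀ q ∈ B, (qs q.1 c : ℝ) ^ 2 = 1)
    (v : G) : hh A B e (c * v) = - hh A B e v := by
  unfold hh
  by_cases hv : Prm v
  · rw [if_pos ((prm_mul_iff hc).2 hv), if_pos hv, h.2.2.1 c v hc hv]
    have e1 : ∀ q : Pr, ((qs q.1 (c * v) : ℤ) : ℝ) = (qs q.1 c : ℝ) * (qs q.1 v : ℝ) := by
      intro q
      rw [h.1 q.1 q.2.1 q.2.2]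
      push_cast
      rfl
    simp only [e1, mul_pow, Finset.prod_mul_distrib]
    have e2 : ∏ q ∈ B, (qs q.1 c : ℝ) ^ 2 = 1 := Finset.prod_eq_one h2
    rw [e2, one_mul]
    push_cast
    rw [mul_pow]
    linear_combination ((sg v : ℝ) ^ e * (∏ q ∈ A, (qs q.1 v : ℝ)) *
      ∏ q ∈ B, (qs q.1 v : ℝ) ^ 2) * h1
  · rw [if_neg (fun h' => hv ((prm_mul_iff hc).1 h')), if_neg hv, neg_zero]

theorem t_MEAN (h : SMULT) : SMEAN := by
  classical
  intro A B e hAe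
  have hM : 0 < 8 * NN gN A * NN gN B :=
    Nat.mul_pos (Nat.mul_pos (by norm_num) (NN_pos A)) (NN_pos B)
  set M := 8 * NN gN A * NN gN B with hMdef
  have h8 : (8 : G) ∣ (M : G) := by
    rw [hMdef]
    push_cast
    exact Dvd.intro _ (mul_assoc _ _ _).symm
  have hqA : ∀ q ∈ A, q.1 ∣ (M : G) := by
    intro q hq
    refine (dvd_gN q).trans (cast_dvd ((dvd_NN hq).trans ?_))
    rw [hMdef]
    exact Dvd.intro_left 8 rfl |>.trans (dvd_mul_right _ _)
  have hqB : ∀ q ∈ B, q.1 ∣ (M : G) := by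
    intro q hq
    refine (dvd_gN q).trans (cast_dvd ((dvd_NN hq).trans ?_))
    rw [hMdef]
    exact dvd_mul_left _ _
  have hper : ∀ v w : G, (M : G) ∣ v - w → hh A B e v = hh A B e w := by
    intro v w hvw
    have hvw' : (M : G) ∣ w - v := by
      rw [← neg_sub]
      exact (dvd_neg).2 hvw
    unfold hh
    by_cases hv : Prm v
    · obtain ⟨h1, h2⟩ := h.2.2.2 v w hv (h8.trans hvw)
      rw [if_pos hv, if_pos h1, h2]
      congr 1
      · congr 1
        exact Finset.prod_congr rfl fun q hq => by rw [h.2.1 q.1 v w ((hqA q hq).trans hvw)]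
      · exact Finset.prod_congr rfl fun q hq => by rw [h.2.1 q.1 v w ((hqB q hq).trans hvw)]
    · rw [if_neg hv, if_neg]
      intro hw
      exact hv (h.2.2.2 w v hw (h8.trans hvw')).1
  refine ⟨hper, ?_⟩
  by_cases hA : A.Nonempty
  · obtain ⟨q0, hq0⟩ := hA
    have hMne : (M : G) ≠ 0 := by
      intro h0
      have h1 := congrArg Zsqrtd.re h0
      simp at h1
      omega
    have hfm : FiniteMultiplicity q0.1 (M : G) :=
      FiniteMultiplicity.of_prime_left q0.2.1 hMne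
    obtain ⟨K, hK, hKn⟩ := hfm.exists_eq_pow_mul_and_not_dvd
    have hcop : IsCoprime q0.1 K := (q0.2.1.irreducible.coprime_iff_not_dvd).2 hKn
    obtain ⟨n, hn, hn1⟩ := exists_nonres q0
    obtain ⟨a, b, hab⟩ := hcop
    -- c = n mod q0, c = 1 mod K
    obtain ⟨c, hc1, hc2⟩ : ∃ c : G, q0.1 ∣ c - n ∧ K ∣ c - 1 := by
      refine ⟨a * q0.1 + b * K * n, ⟨a - a * n, ?_⟩, ⟨b * n - b, ?_⟩⟩
      · linear_combination n * hab
      · linear_combination hab
    have h8K : (8 : G) ∣ K := by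
      rw [hK] at h8
      exact ((prm_coprime_eight q0.2.2).pow_left.symm).dvd_of_dvd_mul_left h8
    have hqK : ∀ q : Pr, q ≠ q0 → q.1 ∣ (M : G) → q.1 ∣ K := by
      intro q hne hd
      rw [hK] at hd
      rcases q.2.1.dvd_or_dvd hd with h1 | h1
      · exact absurd (q.2.1.dvd_of_dvd_pow h1) (coprime_ne hne)
      · exact h1
    have hc8 : (8 : G) ∣ (1 : G) - c := by
      rw [← neg_sub]
      exact (dvd_neg).2 (h8K.trans hc2)
    obtain ⟨hcp, hcs⟩ := h.2.2.2 1 c prm_one hc8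
    rw [sg_one] at hcs
    have hcq0 : qs q0.1 c = -1 := by rw [h.2.1 q0.1 c n hc1, hn1]
    have hcq : ∀ q : Pr, q ≠ q0 → q.1 ∣ (M : G) → qs q.1 c = 1 := fun q hne hd =>
      qs_of_dvd h ((hqK q hne hd).trans hc2)
    have hcc : IsCoprime c (M : G) := by
      rw [hK]
      refine IsCoprime.mul_right (IsCoprime.pow_right ?_) ?_
      · rw [isCoprime_comm, q0.2.1.irreducible.coprime_iff_not_dvd]
        intro h1
        apply hn
        have h2 := dvd_sub h1 hc1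
        have h3 : c - (c - n) = n := by ring
        rwa [h3] at h2
      · obtain ⟨k, hk⟩ := hc2
        exact ⟨1, -k, by linear_combination hk⟩
    refine sum_zero M hM _ c hcc hper (hh_mul h A B e hcp ?_ ?_)
    · rw [← hcs]
      rw [← Finset.mul_prod_erase A _ hq0, hcq0]
      have h1 : ∏ q ∈ A.erase q0, (qs q.1 c : ℝ) = 1 := by
        refine Finset.prod_eq_one fun q hq => ?_
        rw [Finset.mem_erase] at hq
        rw [hcq q hq.1 (hqA q hq.2)]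
        norm_num
      rw [h1]
      norm_num
    · intro q hq
      by_cases hne : q = q0
      · rw [hne, hcq0]
        norm_num
      · rw [hcq q hne (hqB q hq)]
        norm_num
  · have he : e = 1 := by
      rcases hAe with h1 | h1
      · exact absurd h1 hA
      · exact h1
    have hA0 : A = ∅ := Finset.not_nonempty_iff_eq_empty.1 hA
    have hcop : IsCoprime (8 : G) ((NN gN A * NN gN B : ℕ) : G) := by
      push_cast
      exact (NN_odd A).mul_right (NN_odd B)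
    obtain ⟨a, b, hab⟩ := hcop
    set K : G := ((NN gN A * NN gN B : ℕ) : G) with hK
    have hMK : (M : G) = 8 * K := by
      rw [hMdef, hK]
      push_cast
      ring
    obtain ⟨c, hc1, hc2⟩ : ∃ c : G, (8 : G) ∣ (⟨3, 2⟩ : G) - c ∧ K ∣ c - 1 := by
      refine ⟨a * 8 + b * K * ⟨3, 2⟩, ⟨a * ⟨3, 2⟩ - a, ?_⟩, ⟨b * ⟨3, 2⟩ - b, ?_⟩⟩
      · linear_combination (-(⟨3, 2⟩ : G)) * hab
      · linear_combination hab
    obtain ⟨hcp, hcs⟩ := h.2.2.2 _ c prm_c hc1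
    rw [sg_c] at hcs
    have hcq : ∀ q ∈ B, qs q.1 c = 1 := by
      intro q hq
      refine qs_of_dvd h (Dvd.dvd.trans ?_ hc2)
      rw [hK]
      exact (dvd_gN q).trans (cast_dvd ((dvd_NN hq).trans (dvd_mul_left _ _)))
    have hcc : IsCoprime c (M : G) := by
      rw [hMK]
      refine IsCoprime.mul_right (prm_coprime_eight hcp) ?_
      obtain ⟨k, hk⟩ := hc2
      exact ⟨1, -k, by linear_combination hk⟩
    refine sum_zero M hM _ c hcc hper (hh_mul h A B e hcp ?_ ?_)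
    · rw [← hcs, hA0, he]
      norm_num
    · intro q hq
      rw [hcq q hq]
      norm_num

end Pool.Agent.Y497.PP
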